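import Pool.Agent.helper10.QT.SpecY

set_option autoImplicit false

/-!
# Project AT (MP_bf63dc_nt), row bq:GRB: clusters in a subgroup
-/

namespace Pool.Agent.AT

open Finset Pool.Agent.helper85.FC

open scoped Pointwise

theorem GRB_aux {G : Type} [CommGroup G] (S : Set G) (H : Subgroup G) (hSH : ∀ x ∈ S, x ∈ H)
    (g : G) (hg : g ∉ H) (u v : G) (hu : u ∈ H) (hv : v ∈ H) :
    u / (g * v) ∉ S ∧ (g * v) / u ∉ S := by
  constructor
  · intro h
    have h1 := hSH _ h
    apply hg
    have h2 : g = (u / (g * v))⁻¹ * (u / v) := by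
      rw [inv_div]
      have : g * v / u * (u / v) = g * (v / u * (u / v)) := by
        rw [mul_div_assoc, mul_assoc]
      rw [this, div_mul_div_cancel, div_self', mul_one]
    rw [h2]
    exact H.mul_mem (H.inv_mem h1) (H.div_mem hu hv)
  · intro h
    have h1 := hSH _ h
    apply hg
    have h2 : g = (g * v) / u * (u / v) := by
      have : g * v / u * (u / v) = g * (v / u * (u / v)) := by
        rw [mul_div_assoc, mul_assoc]
      rw [this, div_mul_div_cancel, div_self', mul_one]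
    rw [h2]
    exact H.mul_mem h1 (H.div_mem hu hv)

theorem GRB : GRB_stmt := by
  intro G _ S K H hsym hSH hH hcl X Y hX hY hXH hYH
  obtain ⟨g, hg⟩ : ∃ g : G, g ∉ H := by
    by_contra hcon
    push Not at hcon
    exact hH ((Subgroup.eq_top_iff' H).2 hcon)
  obtain ⟨i, j, hij, x, hx, y, hy, hxy⟩ := hcl
    ![X, Y, X.map (mulLeftEmbedding g), Y.map (mulLeftEmbedding g)] (by
      intro i
      fin_cases i
      · exact hX
      · exact hY
      · show K ≤ #(X.map (mulLeftEmbedding g))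
        rw [Finset.card_map]
        exact hX
      · show K ≤ #(Y.map (mulLeftEmbedding g))
        rw [Finset.card_map]
        exact hY)
  have hmem : ∀ (Z : Finset G) (z : G), z ∈ Z.map (mulLeftEmbedding g) → ∃ w ∈ Z, g * w = z := by
    intro Z z hz
    obtain ⟨w, hw, hwz⟩ := Finset.mem_map.1 hz
    exact ⟨w, hw, hwz⟩
  have hinv : ∀ {a b : G}, a / b ∈ S → b / a ∈ S := by
    intro a b h
    have := hsym _ h
    rwa [inv_div] at this
  have hcan : ∀ a b : G, (g * a) / (g * b) = a / b := fun a b => mul_div_mul_left_eq_div a b g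
  fin_cases i <;> fin_cases j
  · exact absurd rfl hij
  · exact ⟨x, hx, y, hy, hxy⟩
  · obtain ⟨w, hw, hwy⟩ := hmem X y hy
    subst hwy
    exact absurd hxy (GRB_aux S H hSH g hg x w (hXH x hx) (hXH w hw)).1
  · obtain ⟨w, hw, hwy⟩ := hmem Y y hy
    subst hwy
    exact absurd hxy (GRB_aux S H hSH g hg x w (hXH x hx) (hYH w hw)).1
  · exact ⟨y, hy, x, hx, hinv hxy⟩
  · exact absurd rfl hij
  · obtain ⟨w, hw, hwy⟩ := hmem X y hy
    subst hwy
    exact absurd hxy (GRB_aux S H hSH g hg x w (hYH x hx) (hXH w hw)).1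
  · obtain ⟨w, hw, hwy⟩ := hmem Y y hy
    subst hwy
    exact absurd hxy (GRB_aux S H hSH g hg x w (hYH x hx) (hYH w hw)).1
  · obtain ⟨w, hw, hwx⟩ := hmem X x hx
    subst hwx
    exact absurd hxy (GRB_aux S H hSH g hg y w (hXH y hy) (hXH w hw)).2
  · obtain ⟨w, hw, hwx⟩ := hmem X x hx
    subst hwx
    exact absurd hxy (GRB_aux S H hSH g hg y w (hYH y hy) (hXH w hw)).2
  · exact absurd rfl hij
  · obtain ⟨w, hw, hwx⟩ := hmem X x hx
    obtain ⟨w', hw', hwy⟩ := hmem Y y hy
    subst hwx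
    subst hwy
    rw [hcan] at hxy
    exact ⟨w, hw, w', hw', hxy⟩
  · obtain ⟨w, hw, hwx⟩ := hmem Y x hx
    subst hwx
    exact absurd hxy (GRB_aux S H hSH g hg y w (hXH y hy) (hYH w hw)).2
  · obtain ⟨w, hw, hwx⟩ := hmem Y x hx
    subst hwx
    exact absurd hxy (GRB_aux S H hSH g hg y w (hYH y hy) (hYH w hw)).2
  · obtain ⟨w, hw, hwx⟩ := hmem Y x hx
    obtain ⟨w', hw', hwy⟩ := hmem X y hy
    subst hwx
    subst hwy
    rw [hcan] at hxy
    exact ⟨w', hw', w, hw, hinv hxy⟩
  · exact absurd rfl hij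

end Pool.Agent.AT
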